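import Pool.Agent.BKW.Stmts

/-! # Squad BKW (MP_0c1440_lc), row SIG: Siegel's lemma. -/

set_option autoImplicit false

namespace Pool.Agent.BKW.H42

open Real Pool.Agent.BKW
open scoped BigOperators

attribute [local instance] Matrix.seminormedAddCommGroup

variable {N L : ℕ} {a : Fin N → ℕ} {a0 : ℕ} {b : Fin N → ℤ} {b0 : ℤ} {l : ℝ} {B : ℕ}

theorem abs_cc (d : Dat N a a0 b b0 l B) (u : Ix N L) (j : Fin N) :
    |((cc b b0 u j : ℤ) : ℝ)| ≤ 2 * B * L := by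
  have hx : (((u.1 j : ℕ)) : ℝ) ≤ L := by exact_mod_cast (u.1 j).2.le
  have hy : (((u.2 : ℕ)) : ℝ) ≤ L := by exact_mod_cast u.2.2.le
  have hb : |((b j : ℤ) : ℝ)| ≤ B := by
    rw [← Int.cast_abs, Int.abs_eq_natAbs]
    exact_mod_cast d.hb j
  have hb0 : |((b0 : ℤ) : ℝ)| ≤ B := by
    rw [← Int.cast_abs, Int.abs_eq_natAbs]
    exact_mod_cast d.hb0.le
  have hB0 : (0 : ℝ) ≤ B := Nat.cast_nonneg _
  have hx0 : (0 : ℝ) ≤ ((u.1 j : ℕ)) := Nat.cast_nonneg _
  have hy0 : (0 : ℝ) ≤ ((u.2 : ℕ)) := Nat.cast_nonneg _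
  unfold cc
  push_cast
  calc |(b0 : ℝ) * ((u.1 j : ℕ) : ℝ) - (b j : ℝ) * ((u.2 : ℕ) : ℝ)|
      ≤ |(b0 : ℝ) * ((u.1 j : ℕ) : ℝ)| + |(b j : ℝ) * ((u.2 : ℕ) : ℝ)| := abs_sub _ _
    _ = |(b0 : ℝ)| * ((u.1 j : ℕ) : ℝ) + |(b j : ℝ)| * ((u.2 : ℕ) : ℝ) := by
        rw [abs_mul, abs_mul, abs_of_nonneg hx0, abs_of_nonneg hy0]
    _ ≤ B * L + B * L := by
        gcongr
    _ = 2 * B * L := by ring

theorem one_le_2BL (d : Dat N a a0 b b0 l B) (hL : 1 ≤ L) : (1 : ℝ) ≤ 2 * B * L := by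
  have h1 : (1 : ℝ) ≤ B := by exact_mod_cast d.B1
  have h2 : (1 : ℝ) ≤ L := by exact_mod_cast hL
  nlinarith

theorem abs_prod_cc (d : Dat N a a0 b b0 l B) (hL : 1 ≤ L) (u : Ix N L) (h : ℕ)
    (μ : Fin N → ℕ) (hμ : ∑ j, μ j ≤ h) :
    |((∏ j, cc b b0 u j ^ μ j : ℤ) : ℝ)| ≤ (2 * B * L) ^ h := by
  have h1 := one_le_2BL d hL
  push_cast
  rw [Finset.abs_prod]
  calc ∏ j, |((cc b b0 u j : ℤ) : ℝ) ^ μ j| ≤ ∏ j, (2 * B * L : ℝ) ^ μ j := by
        apply Finset.prod_le_prod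
        · intro j _
          exact abs_nonneg _
        · intro j _
          rw [abs_pow]
          exact pow_le_pow_left₀ (abs_nonneg _) (abs_cc d u j) _
    _ = (2 * B * L : ℝ) ^ ∑ j, μ j := by rw [Finset.prod_pow_eq_pow_sum]
    _ ≤ (2 * B * L) ^ h := pow_le_pow_right₀ h1 hμ

theorem cast_le_exp {x : ℕ} {l : ℝ} (hx : 1 ≤ x) (h : log x ≤ l) : (x : ℝ) ≤ exp l := by
  have hx' : (0 : ℝ) < x := by exact_mod_cast hx
  calc (x : ℝ) = exp (log x) := (Real.exp_log hx').symm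
    _ ≤ exp l := Real.exp_le_exp.mpr h

theorem pow_le_exp {x L k : ℕ} {l : ℝ} (hx : 1 ≤ x) (h : log x ≤ l) (hl : 0 ≤ l) (hk : k ≤ L) :
    (x : ℝ) ^ k ≤ exp (L * l) := by
  have h1 := cast_le_exp hx h
  have hk' : (k : ℝ) ≤ L := by exact_mod_cast hk
  calc (x : ℝ) ^ k ≤ (exp l) ^ k := pow_le_pow_left₀ (Nat.cast_nonneg _) h1 k
    _ = exp (k * l) := by rw [← Real.exp_nat_mul]
    _ ≤ exp (L * l) := Real.exp_le_exp.mpr (mul_le_mul_of_nonneg_right hk' hl)

theorem mon_le (d : Dat N a a0 b b0 l B) (u : Ix N L) :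
    ((mon a a0 u : ℕ) : ℝ) ≤ exp (((N : ℝ) + 1) * L * l) := by
  have hl : 0 ≤ l := by linarith [d.l1]
  unfold mon
  push_cast
  calc (∏ j, (a j : ℝ) ^ (u.1 j : ℕ)) * (a0 : ℝ) ^ (u.2 : ℕ)
      ≤ (∏ _j : Fin N, exp (L * l)) * exp (L * l) := by
        apply mul_le_mul
        · apply Finset.prod_le_prod
          · intro j _
            positivity
          · intro j _
            exact pow_le_exp (d.a1 j) (d.la j) hl (u.1 j).2.le
        · exact pow_le_exp d.a01 d.la0 hl u.2.2.le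
        · positivity
        · exact Finset.prod_nonneg fun _ _ => (exp_pos _).le
    _ = exp (((N : ℝ) + 1) * L * l) := by
        rw [Finset.prod_const, Finset.card_univ, Fintype.card_fin, ← Real.exp_nat_mul,
          ← Real.exp_add]
        congr 1
        ring

theorem sig : SigStmt := by
  intro N L h R B a a0 b b0 l d hL hR hcard
  classical
  have h1B := one_le_2BL (L := L) d hL
  have hl : 0 ≤ l := by linarith [d.l1]
  have hL0 : (0 : ℝ) ≤ L := Nat.cast_nonneg _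
  have hN0 : (0 : ℝ) ≤ N := Nat.cast_nonneg _
  have hR0 : (0 : ℝ) ≤ R := Nat.cast_nonneg _
  set H : ℝ := (2 * B * L) ^ h * exp (((N : ℝ) + 1) * L * l * R) with hH
  have hH1 : 1 ≤ H := by
    have e1 : (1 : ℝ) ≤ (2 * B * L : ℝ) ^ h := one_le_pow₀ h1B
    have e2 : (1 : ℝ) ≤ exp (((N : ℝ) + 1) * L * l * R) := Real.one_le_exp (by positivity)
    rw [hH]
    exact one_le_mul_of_one_le_of_one_le e1 e2
  let A : Matrix ((Fin N → Fin (h + 1)) × Fin R) (Ix N L) ℤ := fun κ u =>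
    if ∑ j, ((κ.1 j : ℕ)) ≤ h then
      (∏ j, cc b b0 u j ^ ((κ.1 j : ℕ))) * ((mon a a0 u : ℕ) : ℤ) ^ ((κ.2 : ℕ) + 1) else 0
  have hcr : Fintype.card ((Fin N → Fin (h + 1)) × Fin R) = R * (h + 1) ^ N := by
    simp only [Fintype.card_prod, Fintype.card_fun, Fintype.card_fin]
    exact mul_comm _ _
  have hcc : Fintype.card (Ix N L) = L ^ (N + 1) := by
    simp only [Fintype.card_prod, Fintype.card_fun, Fintype.card_fin]
    exact (pow_succ _ _).symm
  have hrpos : 0 < R * (h + 1) ^ N := by positivity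
  have hpos : 0 < Fintype.card ((Fin N → Fin (h + 1)) × Fin R) := by rw [hcr]; exact hrpos
  have hlt : Fintype.card ((Fin N → Fin (h + 1)) × Fin R) < Fintype.card (Ix N L) := by
    rw [hcr, hcc]; omega
  obtain ⟨t, ht0, htA, htn⟩ := Int.Matrix.exists_ne_zero_int_vec_norm_le A hlt hpos
  have hAle : max 1 ‖A‖ ≤ H := by
    refine max_le hH1 ?_
    rw [Matrix.norm_le_iff (by linarith)]
    rintro ⟨κ, s⟩ u
    rw [Int.norm_eq_abs]
    by_cases hs : ∑ j, ((κ j : ℕ)) ≤ h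
    · have hA : A (κ, s) u = (∏ j, cc b b0 u j ^ ((κ j : ℕ))) *
          ((mon a a0 u : ℕ) : ℤ) ^ ((s : ℕ) + 1) := if_pos hs
      rw [hA]
      have hs' : (((s : ℕ) : ℝ) + 1) ≤ R := by exact_mod_cast s.2
      have e1 := abs_prod_cc d hL u h (fun j => (κ j : ℕ)) hs
      have e2 : ((mon a a0 u : ℕ) : ℝ) ^ ((s : ℕ) + 1) ≤ exp (((N : ℝ) + 1) * L * l * R) := by
        calc ((mon a a0 u : ℕ) : ℝ) ^ ((s : ℕ) + 1)
            ≤ (exp (((N : ℝ) + 1) * L * l)) ^ ((s : ℕ) + 1) :=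
              pow_le_pow_left₀ (Nat.cast_nonneg _) (mon_le d u) _
          _ = exp (((s : ℕ) + 1 : ℕ) * (((N : ℝ) + 1) * L * l)) := by rw [← Real.exp_nat_mul]
          _ ≤ exp (((N : ℝ) + 1) * L * l * R) := by
              apply Real.exp_le_exp.mpr
              rw [mul_comm]
              push_cast
              exact mul_le_mul_of_nonneg_left hs' (by positivity)
      rw [Int.cast_mul, abs_mul, hH]
      apply mul_le_mul e1 _ (abs_nonneg _) (by positivity)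
      push_cast
      rw [abs_of_nonneg (by positivity)]
      exact e2
    · have hA : A (κ, s) u = 0 := if_neg hs
      rw [hA]
      simp only [Int.cast_zero, abs_zero]
      linarith
  have hmax1 : (1 : ℝ) ≤ max 1 ‖A‖ := le_max_left _ _
  have hιpos : (1 : ℝ) ≤ (Fintype.card (Ix N L) : ℝ) := by
    have : 1 ≤ Fintype.card (Ix N L) := by omega
    exact_mod_cast this
  have hbase : (1 : ℝ) ≤ (Fintype.card (Ix N L) : ℝ) * max 1 ‖A‖ :=
    one_le_mul_of_one_le_of_one_le hιpos hmax1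
  have hexp : ((Fintype.card ((Fin N → Fin (h + 1)) × Fin R) : ℝ) /
      ((Fintype.card (Ix N L) : ℝ) - (Fintype.card ((Fin N → Fin (h + 1)) × Fin R) : ℝ))) ≤ 1 := by
    have h2 : (2 : ℝ) * (Fintype.card ((Fin N → Fin (h + 1)) × Fin R) : ℝ) ≤
        (Fintype.card (Ix N L) : ℝ) := by
      rw [hcr, hcc]
      exact_mod_cast hcard
    have h3 : (0 : ℝ) < (Fintype.card ((Fin N → Fin (h + 1)) × Fin R) : ℝ) := by
      exact_mod_cast hpos
    rw [div_le_one (by linarith)]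
    linarith
  have hnorm : ‖t‖ ≤ (Fintype.card (Ix N L) : ℝ) * H := by
    refine htn.trans ?_
    calc _ ≤ ((Fintype.card (Ix N L) : ℝ) * max 1 ‖A‖) ^ (1 : ℝ) :=
          Real.rpow_le_rpow_of_exponent_le hbase hexp
      _ = (Fintype.card (Ix N L) : ℝ) * max 1 ‖A‖ := Real.rpow_one _
      _ ≤ _ := by gcongr
  refine ⟨t, ht0, ?_, ?_⟩
  · intro u
    have h1 := norm_le_pi_norm t u
    rw [Int.norm_eq_abs] at h1
    refine (h1.trans hnorm).trans (le_of_eq ?_)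
    have hLpos : (0 : ℝ) < L := by exact_mod_cast hL
    rw [hcc, hH, Real.exp_add, Real.exp_add]
    have e1 : exp (((N : ℝ) + 1) * log L) = ((L ^ (N + 1) : ℕ) : ℝ) := by
      have : ((N : ℝ) + 1) * log L = ((N + 1 : ℕ) : ℝ) * log L := by push_cast; ring
      rw [this, Real.exp_nat_mul, Real.exp_log hLpos]
      push_cast
      ring
    have e2 : exp ((h : ℝ) * log (2 * B * L)) = (2 * B * L : ℝ) ^ h := by
      rw [Real.exp_nat_mul, Real.exp_log (by linarith)]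
    rw [e1, e2]
    ring
  · intro μ hμ s hs1 hsR
    have hμj : ∀ j, μ j < h + 1 := fun j => by
      have : μ j ≤ ∑ i, μ i := Finset.single_le_sum (fun _ _ => Nat.zero_le _) (Finset.mem_univ j)
      omega
    have h1 := congrFun htA (fun j => ⟨μ j, hμj j⟩, ⟨s - 1, by omega⟩)
    simp only [Matrix.mulVec, dotProduct, A, Pi.zero_apply] at h1
    unfold FF
    rw [← h1]
    refine Finset.sum_congr rfl fun u _ => ?_
    rw [if_pos hμ, Nat.sub_add_cancel hs1]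
    ring

end Pool.Agent.BKW.H42
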